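import Pool.Agent.helper82.LEQ.Spec

/-! # Row lq:XC: retraction -/

set_option autoImplicit false

namespace LEQ

open scoped BigOperators
open QS (Lef EAb)

theorem XC (h1 : XR_stmt) (h2 : XK_stmt) : XC_stmt := by
  intro α _ _ P Q f hf hle _ hmono
  have key : ∀ (n : ℕ) (R : α → Prop), (∀ x, P x → Q x → R x) → (∀ x, R x → P x) →
      (FS (fun x => R x ∧ ¬ Q x)).card = n → XS R = XS (fun y => P y ∧ Q y) := by
    intro n
    induction n using Nat.strong_induction_on with
    | _ n ih =>
      intro R hPQ hRP hn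
      by_cases hex : ∃ x, R x ∧ ¬ Q x
      · obtain ⟨x, hx, hqx⟩ := hex
        have hfx := hf x (hRP x hx)
        have hne : f x ≠ x := fun h => hqx (h ▸ hfx.2)
        have h0 : XS (fun y => R y ∧ y < x) = 0 := by
          refine h2 α (fun y => R y ∧ y < x) (f x) f ?_ ?_ ?_ ?_ ?_
          · exact ⟨hPQ _ hfx.1 hfx.2, lt_of_le_of_ne (hle x (hRP x hx)) hne⟩
          · rintro y ⟨hy, hyx⟩
            exact ⟨hPQ _ (hf y (hRP y hy)).1 (hf y (hRP y hy)).2, (hle y (hRP y hy)).trans_lt hyx⟩
          · rintro y ⟨hy, _⟩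
            exact hle y (hRP y hy)
          · rintro y ⟨hy, hyx⟩
            exact hmono y x (hRP y hy) (hRP x hx) hyx.le
          · rintro y y' ⟨hy, _⟩ ⟨hy', _⟩ hyy
            exact hmono y y' (hRP y hy) (hRP y' hy') hyy
        rw [h1 α R x hx, h0, zero_mul, add_zero]
        refine ih _ ?_ (fun y => R y ∧ y ≠ x) ?_ ?_ rfl
        · rw [← hn]
          refine Finset.card_lt_card ?_
          rw [Finset.ssubset_iff_of_subset]
          · exact ⟨x, mem_FS.2 ⟨hx, hqx⟩, fun h => (mem_FS.1 h).1.2 rfl⟩
          · intro y hy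
            have := mem_FS.1 hy
            exact mem_FS.2 ⟨this.1.1, this.2⟩
        · intro y hy hq
          exact ⟨hPQ y hy hq, fun h => hqx (h ▸ hq)⟩
        · intro y hy
          exact hRP y hy.1
      · have h3 : R = fun y => P y ∧ Q y := by
          funext y
          apply propext
          constructor
          · intro hy
            refine ⟨hRP y hy, ?_⟩
            by_contra hq
            exact hex ⟨y, hy, hq⟩
          · rintro ⟨hp, hq⟩
            exact hPQ y hp hq
        rw [h3]
  exact key _ P (fun x hx _ => hx) (fun x hx => hx) rfl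

end LEQ
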